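import Pool.Agent.Helper3.T5.Defs
import Pool.Agent.Helper22.HW.Price
import Pool.Agent.Helper18.T5.J1

/-!
# T5, block J0, J3: the number of candidates
-/

namespace Pool.Agent.Helper54.T5

open Finset Pool.Agent.Helper27.T4 Pool.Agent.Helper22.HW Pool.Agent.Helper22.SL
  Pool.Agent.Helper3.T5

variable {ι κ : Type*} [Fintype ι] [DecidableEq ι] {M : MP ι κ} {Mk : κ → ℕ}

/-- the exponents of the class which is known without the fresh family -/
def bR (M : MP ι κ) : ι → ℕ := fx M.e' {M.R}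

theorem bR_le (M : MP ι κ) : ∀ i, bR M i ≤ M.e' i := fx_le M.e' {M.R}

theorem eR (hM : M.Ok Mk) : M.e' M.R = M.e M.R := by
  have h1 := hM.statR
  have h2 := hM.ce' M.R
  have h3 := hM.ee M.R
  omega

/-- the product of the bound of J1 for the exponents `bR` -/
theorem prod_bR_le (hM : M.Ok Mk) :
    ∏ i, M.p i ^ ((M.c i + M.c' i - 2 * bR M i) / 2) ≤ M.Lam * M.q := by
  have h0 : ∏ i, M.p i ^ ((M.c i + M.c' i - 2 * bR M i) / 2) =
      M.p M.R ^ ((M.c M.R + M.c' M.R - 2 * bR M M.R) / 2) *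
        ∏ i ∈ univ.erase M.R, M.p i ^ ((M.c i + M.c' i - 2 * bR M i) / 2) :=
    (Finset.mul_prod_erase univ (fun i => M.p i ^ ((M.c i + M.c' i - 2 * bR M i) / 2))
      (Finset.mem_univ M.R)).symm
  have h1 : ∏ i ∈ univ.erase M.R, M.p i ^ ((M.c i + M.c' i - 2 * bR M i) / 2) = M.Lam := by
    unfold MP.Lam
    refine Finset.prod_congr rfl (fun i hi => ?_)
    have hi' : i ≠ M.R := Finset.ne_of_mem_erase hi
    simp [bR, fx, hi']
  have h2 : M.p M.R ^ ((M.c M.R + M.c' M.R - 2 * bR M M.R) / 2) ≤ M.q := by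
    unfold MP.q
    apply Nat.pow_le_pow_right (hM.prime _).pos
    have h3 := hM.statR
    have h4 := hM.ce M.R
    have h5 : bR M M.R = 0 := by simp [bR, fx]
    omega
  rw [h0, h1, mul_comm]
  exact Nat.mul_le_mul_left _ h2

/-- a candidate gives a pair of vectors of J1 -/
theorem cand_mem (hM : M.Ok Mk) (w : κ → ℕ) (T : ℕ) {d : ((ι → ℕ) × (ι → ℕ)) × (ℕ × ℕ)}
    (hd : d ∈ M.cand w T) : d.1 ∈ M.prs hM w (bR M) T := by
  classical
  unfold MP.cand at hd
  rw [mem_filter, mem_product, mem_product, mem_product] at hd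
  obtain ⟨⟨⟨hx, hx'⟩, -⟩, hT, hu, hu'⟩ := hd
  unfold MP.prs
  rw [mem_filter, mem_product]
  refine ⟨⟨hx, hx'⟩, fun i => ?_⟩
  by_cases hi : i = M.R
  · have h0 : bR M i = 0 := by simp [bR, fx, hi]
    rw [h0, pow_zero]
    exact Nat.modEq_one
  · have h0 : bR M i = M.e' i := by simp [bR, fx, hi]
    rw [h0]
    have h1 : M.cd hM w d.1.1 ≡ d.2.1 [MOD M.p i ^ M.e i] := by
      rw [← ZMod.natCast_eq_natCast_iff, hu i hi]
      exact cv_cast_comp hM.prime hM.inj M.e _ i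
    have h2 : M.cd' hM w d.1.2 ≡ d.2.2 [MOD M.p i ^ M.e' i] := by
      rw [← ZMod.natCast_eq_natCast_iff, hu' i hi]
      exact cv_cast_comp hM.prime hM.inj M.e' _ i
    have h3 := (h1.of_dvd (pow_dvd_pow (M.p i) (hM.ee i))).add h2
    rwa [hT] at h3

/-- the two codes of a candidate, for given vectors -/
theorem cand_fiber (hM : M.Ok Mk) (w : κ → ℕ) (T : ℕ) (z : (ι → ℕ) × (ι → ℕ)) :
    ((M.cand w T).filter (fun d => d.1 = z)).card ≤ M.Ne' / NN M.p (fx M.e {M.R}) + 1 := by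
  classical
  have hdvd : NN M.p (fx M.e' {M.R}) ∣ NN M.p (fx M.e {M.R}) := by
    apply NN_dvd
    intro i
    unfold fx
    split_ifs
    · exact le_rfl
    · exact hM.ee i
  have hpos : 0 < NN M.p (fx M.e {M.R}) := NN_pos hM.prime _
  have hpos' : 0 < NN M.p (fx M.e' {M.R}) := NN_pos hM.prime _
  have hlcm : Nat.lcm (NN M.p (fx M.e {M.R})) (NN M.p (fx M.e' {M.R})) =
      NN M.p (fx M.e {M.R}) := Nat.lcm_eq_left hdvd
  have hcls : ∀ (e : ι → ℕ) (u v : ℕ), (∀ i, i ≠ M.R →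
      ((u : ℕ) : ZMod (M.p i ^ e i)) = ((v : ℕ) : ZMod (M.p i ^ e i))) →
      u ≡ v [MOD NN M.p (fx e {M.R})] := by
    intro e u v h
    rw [← ZMod.natCast_eq_natCast_iff, natCast_eq_iff hM.prime hM.inj]
    intro i
    by_cases hi : i = M.R
    · have h0 : fx e {M.R} i = 0 := by simp [fx, hi]
      rw [ZMod.natCast_eq_natCast_iff, h0, pow_zero]
      exact Nat.modEq_one
    · have h0 : fx e {M.R} i = e i := by simp [fx, hi]
      rw [h0]
      exact h i hi
  have h1 : ((M.cand w T).filter (fun d => d.1 = z)).card =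
      (((M.cand w T).filter (fun d => d.1 = z)).image (fun d => d.2)).card := by
    rw [Finset.card_image_of_injOn]
    intro d hd d' hd' h
    rw [mem_coe, mem_filter] at hd hd'
    exact Prod.ext (hd.2.trans hd'.2.symm) h
  rw [h1]
  have h2 := pair_sum_card (A := M.Ne) (A' := M.Ne') (B := NN M.p (fx M.e {M.R}))
    (B' := NN M.p (fx M.e' {M.R})) (T := T) hpos hpos'
    (((M.cand w T).filter (fun d => d.1 = z)).image (fun d => d.2))
    (by
      intro t ht
      rw [mem_image] at ht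
      obtain ⟨d, hd, rfl⟩ := ht
      rw [mem_filter] at hd
      have hd1 := hd.1
      unfold MP.cand at hd1
      rw [mem_filter, mem_product, mem_product, mem_product, mem_range, mem_range] at hd1
      exact ⟨hd1.1.2.1, hd1.1.2.2, hd1.2.1⟩)
    (by
      intro t ht s hs
      rw [mem_image] at ht hs
      obtain ⟨d, hd, rfl⟩ := ht
      obtain ⟨d', hd', rfl⟩ := hs
      rw [mem_filter] at hd hd'
      have hd1 := hd.1
      have hd1' := hd'.1
      unfold MP.cand at hd1 hd1'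
      rw [mem_filter] at hd1 hd1'
      refine ⟨hcls M.e _ _ (fun i hi => ?_), hcls M.e' _ _ (fun i hi => ?_)⟩
      · rw [hd1.2.2.1 i hi, hd1'.2.2.1 i hi, hd.2, hd'.2]
      · rw [hd1.2.2.2 i hi, hd1'.2.2.2 i hi, hd.2, hd'.2])
  rw [hlcm] at h2
  exact h2.trans (Nat.add_le_add_right (Nat.div_le_div_right (min_le_right _ _)) 1)

/-- **J3** from J1 -/
theorem cand_count_of (hM : M.Ok Mk) (w : κ → ℕ) (T : ℕ)
    (hJ1 : (M.prs hM w (bR M) T).card ≤
      M.C * ∏ i, M.p i ^ ((M.c i + M.c' i - 2 * bR M i) / 2)) :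
    ((M.cand w T).card : ℝ) ≤
      M.C * M.Lam * (M.q : ℝ) ^ 2 * ((M.Ne' : ℝ) / M.Ne + 1 / M.q) := by
  classical
  have h1 : (M.cand w T).card ≤
      (M.Ne' / NN M.p (fx M.e {M.R}) + 1) * (M.prs hM w (bR M) T).card :=
    Finset.card_le_mul_card_image_of_maps_to (f := fun d => d.1)
      (fun d hd => cand_mem hM w T hd) _ (fun z _ => cand_fiber hM w T z)
  have h2 : (M.prs hM w (bR M) T).card ≤ M.C * (M.Lam * M.q) :=
    hJ1.trans (Nat.mul_le_mul_left _ (prod_bR_le hM))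
  have h3 : NN M.p (fx M.e {M.R}) * M.q = M.Ne := by
    have := NN_fx_mul (p := M.p) M.e {M.R}
    simpa [MM, MP.q, MP.Ne] using this
  have hq : (0 : ℝ) < M.q := by
    exact_mod_cast (pow_pos (hM.prime _).pos _ : 0 < M.p M.R ^ M.e M.R)
  have hB : (0 : ℝ) < NN M.p (fx M.e {M.R}) := by exact_mod_cast NN_pos hM.prime _
  have h3' : (NN M.p (fx M.e {M.R}) : ℝ) * M.q = M.Ne := by exact_mod_cast h3
  have hNe : (0 : ℝ) < M.Ne := by rw [← h3']; positivity
  have h4 : ((M.Ne' / NN M.p (fx M.e {M.R}) + 1 : ℕ) : ℝ) ≤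
      M.q * ((M.Ne' : ℝ) / M.Ne + 1 / M.q) := by
    have h5 : ((M.Ne' / NN M.p (fx M.e {M.R}) : ℕ) : ℝ) ≤
        (M.Ne' : ℝ) / NN M.p (fx M.e {M.R}) := Nat.cast_div_le
    have h6 : (M.Ne' : ℝ) / NN M.p (fx M.e {M.R}) = M.q * ((M.Ne' : ℝ) / M.Ne) := by
      rw [← h3']
      field_simp
    have h7 : (M.q : ℝ) * (1 / M.q) = 1 := by field_simp
    push_cast
    rw [mul_add, h7, ← h6]
    linarith
  calc ((M.cand w T).card : ℝ)
      ≤ (((M.Ne' / NN M.p (fx M.e {M.R}) + 1) * (M.prs hM w (bR M) T).card : ℕ) : ℝ) := by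
        exact_mod_cast h1
    _ = ((M.Ne' / NN M.p (fx M.e {M.R}) + 1 : ℕ) : ℝ) * ((M.prs hM w (bR M) T).card : ℝ) := by
        push_cast; ring
    _ ≤ (M.q * ((M.Ne' : ℝ) / M.Ne + 1 / M.q)) * ((M.C * (M.Lam * M.q) : ℕ) : ℝ) := by
        apply mul_le_mul h4 (by exact_mod_cast h2) (by positivity) (by positivity)
    _ = M.C * M.Lam * (M.q : ℝ) ^ 2 * ((M.Ne' : ℝ) / M.Ne + 1 / M.q) := by
        push_cast; ring

/-- **J3**: the count of the candidates -/
theorem cand_count (hM : M.Ok Mk) (w : κ → ℕ) (T : ℕ) :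
    ((M.cand w T).card : ℝ) ≤
      M.C * M.Lam * (M.q : ℝ) ^ 2 * ((M.Ne' : ℝ) / M.Ne + 1 / M.q) :=
  cand_count_of hM w T (Pool.Agent.Helper18.T5.base_count hM w (bR M) (bR_le M) T)

end Pool.Agent.Helper54.T5
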