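import Pool.Agent.Helper3.T5.Defs
import Pool.Agent.Helper22.HW.Price

/-!
# T5b, across the split: definitions

The upper state has the label level `MP` (families `ι`, code `cd`, range `Ne`).  The lower state
has the joint code of the vector `x'` (families `ι`) and of `y` in a finite set `Y` with residue
`g y` modulo `Q`, `Q` prime to all `p i`: the number `cdQ` below `Ne' * Q`.
-/

namespace Pool.Agent.Helper54.T5

open Finset Pool.Agent.Helper27.T4 Pool.Agent.Helper22.HW Pool.Agent.Helper22.SL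
  Pool.Agent.Helper3.T5

variable {ι κ γ : Type*} [Fintype ι] [DecidableEq ι] {M : MP ι κ} {Mk : κ → ℕ}

/-- the number below `A * Q` in the classes `r` modulo `A` and `s` modulo `Q` -/
noncomputable def crt (A Q r s : ℕ) : ℕ :=
  open Classical in
  if h : A.Coprime Q then ((Nat.chineseRemainder h r s : {k : ℕ // k ≡ r [MOD A] ∧ k ≡ s [MOD Q]}) : ℕ)
  else 0

theorem crt_left {A Q : ℕ} (h : A.Coprime Q) (r s : ℕ) : crt A Q r s ≡ r [MOD A] := by
  unfold crt
  rw [dif_pos h]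
  exact (Nat.chineseRemainder h r s).2.1

theorem crt_right {A Q : ℕ} (h : A.Coprime Q) (r s : ℕ) : crt A Q r s ≡ s [MOD Q] := by
  unfold crt
  rw [dif_pos h]
  exact (Nat.chineseRemainder h r s).2.2

theorem crt_lt {A Q : ℕ} (h : A.Coprime Q) (hA : 0 < A) (hQ : 0 < Q) (r s : ℕ) :
    crt A Q r s < A * Q := by
  unfold crt
  rw [dif_pos h]
  exact Nat.chineseRemainder_lt_mul h r s hA.ne' hQ.ne'

/-- the joint code of the lower state -/
noncomputable def cdQ (M : MP ι κ) (hM : M.Ok Mk) (Q : ℕ) (g : γ → ℕ) (w : κ → ℕ) (x : ι → ℕ)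
    (y : γ) : ℕ := crt M.Ne' Q (M.cd' hM w x) (g y)

/-- candidates across the split: pairs of vectors, an element of `Y`, and the two codes, whose sum
is `T`; the components outside the fresh family are given by the keys `w` -/
noncomputable def candQ (M : MP ι κ) (Q : ℕ) (Y : Finset γ) (g : γ → ℕ) (w : κ → ℕ) (T : ℕ) :
    Finset ((((ι → ℕ) × (ι → ℕ)) × γ) × (ℕ × ℕ)) :=
  open Classical in
  (((M.X ×ˢ M.X') ×ˢ Y) ×ˢ (range M.Ne ×ˢ range (M.Ne' * Q))).filter (fun d => d.2.1 + d.2.2 = T ∧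
    (∀ i, i ≠ M.R → ((d.2.1 : ℕ) : ZMod (M.p i ^ M.e i)) =
      Lg (M.p i) (M.e i) (d.1.1.1 i) + M.ρ w i d.1.1.1) ∧
    (∀ i, i ≠ M.R → ((d.2.2 : ℕ) : ZMod (M.p i ^ M.e' i)) =
      Lg (M.p i) (M.e' i) (d.1.1.2 i) + M.ρ' w i d.1.1.2) ∧
    d.2.2 ≡ g d.1.2 [MOD Q])

end Pool.Agent.Helper54.T5
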