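import Pool.Agent.Helper57.T5.Tower

/-!
# T5b: the split of the newborn families, exact part

One side (`K`, after the split) has a label level with code `c x` and a static level with code
`c1 y` (a multiple of the front, absolute modulo `Q`); the other side (`K'`, before the split) has
a joint code `c' (x', y')`.  The pair of both levels of the side `K` is one label level of the
tower with modulus `M * Q`.
-/

namespace Pool.Agent.Helper54.T5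

open Finset Pool.Agent.Helper22.HW Pool.Agent.Helper57.T5

/-- arithmetic: the quotient of the joint sum by `M Q`, modulo `D` -/
theorem split_class {M D Q n s a z : ℕ} (hM : 0 < M) (hD : 0 < D) {Qi cl : ℕ}
    (hQi : Q * Qi ≡ 1 [MOD D]) (hs : s ≡ n [MOD M * Q]) (hsa : s ≡ a [MOD M * D])
    (ha : a / M ≡ cl [MOD D]) (hz : z = s / (M * Q)) :
    z ≡ Qi * (cl + (D - 1) * ((n / M) % Q)) [MOD D] := by
  have h1 : s % (M * Q) = n % M + M * (n / M % Q) := by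
    rw [hs, Nat.mod_mul]
  have h2 : M * Q * z + (n % M + M * (n / M % Q)) = s := by
    rw [hz, ← h1]
    exact Nat.div_add_mod s (M * Q)
  have h3 : a % M = n % M := by
    have e1 : s ≡ a [MOD M] := hsa.of_dvd (dvd_mul_right _ _)
    have e2 : s ≡ n [MOD M] := hs.of_dvd (dvd_mul_right _ _)
    exact (e1.symm.trans e2)
  have h4 : M * (a / M) + n % M = a := by
    rw [← h3]
    exact Nat.div_add_mod a M
  have h5 : M * (Q * z + n / M % Q) ≡ M * (a / M) [MOD M * D] := by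
    have e3 : M * (Q * z + n / M % Q) + n % M ≡ M * (a / M) + n % M [MOD M * D] := by
      have e4 : M * (Q * z + n / M % Q) + n % M = s := by
        rw [← h2]; ring
      rw [e4, h4]
      exact hsa
    exact Nat.ModEq.add_right_cancel' _ e3
  have h6 : Q * z + n / M % Q ≡ a / M [MOD D] := Nat.ModEq.mul_left_cancel' hM.ne' h5
  have h7 := h6.trans ha
  rw [← ZMod.natCast_eq_natCast_iff] at h7 hQi ⊢
  push_cast at h7 hQi ⊢
  have hD1 : ((D - 1 : ℕ) : ZMod D) = -1 := by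
    rw [Nat.cast_sub hD]
    simp
  rw [hD1]
  linear_combination (Qi : ZMod D) * h7 - (z : ZMod D) * hQi

variable {α β : Type*}

/-- **The label data of the combined level.** -/
theorem split_lab (X X' : Finset α) (Y Y' : Finset β) (c : α → ℕ) (c1 : β → ℕ)
    (c' : α × β → ℕ) (e' : α → ℕ) {M D Q n I : ℕ} (lab : α × α → ℕ) (cl : ℕ → ℕ)
    (hM : 0 < M) (hD : 0 < D) {Qi : ℕ} (hQi : Q * Qi ≡ 1 [MOD D])
    (hc1 : ∀ y ∈ Y, M * D ∣ c1 y)
    (he' : ∀ x' ∈ X', ∀ y' ∈ Y', c' (x', y') ≡ e' x' [MOD M * D])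
    (hlab : ∀ q ∈ X ×ˢ X', c q.1 + e' q.2 ≡ n [MOD M] →
      lab q < I ∧ (c q.1 + e' q.2) / M ≡ cl (lab q) [MOD D]) :
    ∀ q ∈ (X ×ˢ Y) ×ˢ (X' ×ˢ Y'), (c q.1.1 + c1 q.1.2) + c' q.2 ≡ n [MOD M * Q] →
      lab (q.1.1, q.2.1) < I ∧ ((c q.1.1 + c1 q.1.2) + c' q.2) / (M * Q) ≡
        Qi * (cl (lab (q.1.1, q.2.1)) + (D - 1) * ((n / M) % Q)) [MOD D] := by
  rintro ⟨⟨x, y⟩, ⟨x', y'⟩⟩ hq hs
  simp only [mem_product] at hq
  obtain ⟨⟨hx, hy⟩, hx', hy'⟩ := hq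
  simp only at hs ⊢
  have h1 : (c x + c1 y) + c' (x', y') ≡ c x + e' x' [MOD M * D] := by
    have h2 : c1 y ≡ 0 [MOD M * D] := (Nat.modEq_zero_iff_dvd).2 (hc1 y hy)
    have h3 := ((Nat.ModEq.refl (n := M * D) (c x)).add h2).add (he' x' hx' y' hy')
    simpa using h3
  have h2 : c x + e' x' ≡ n [MOD M] :=
    (h1.of_dvd (dvd_mul_right _ _)).symm.trans (hs.of_dvd (dvd_mul_right _ _))
  obtain ⟨h3, h4⟩ := hlab (x, x') (mem_product.2 ⟨hx, hx'⟩) h2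
  exact ⟨h3, split_class hM hD hQi hs h1 h4 rfl⟩

/-- **Decoding of the combined level.** -/
theorem split_dec [DecidableEq α] [DecidableEq β] (X X' : Finset α) (Y Y' : Finset β)
    (c : α → ℕ) (c1 : β → ℕ) (c' : α × β → ℕ) (e' : α → ℕ) (g' : β → ℕ)
    {M D Q n C₁ Cd : ℕ} (lab : α × α → ℕ)
    (hc1 : ∀ y ∈ Y, M * D ∣ c1 y)
    (he' : ∀ x' ∈ X', ∀ y' ∈ Y', c' (x', y') ≡ e' x' [MOD M * D])
    (hg' : ∀ x' ∈ X', ∀ y' ∈ Y', c' (x', y') ≡ g' y' [MOD Q])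
    (hC₁ : ∀ i, ((X ×ˢ X').filter
      (fun q => c q.1 + e' q.2 ≡ n [MOD M] ∧ lab q = i)).card ≤ C₁)
    (hdec : ∀ T, ((Y ×ˢ Y').filter (fun q => c1 q.1 + g' q.2 ≡ T [MOD Q])).card ≤ Cd) :
    ∀ i, (((X ×ˢ Y) ×ˢ (X' ×ˢ Y')).filter
      (fun q => (c q.1.1 + c1 q.1.2) + c' q.2 ≡ n [MOD M * Q] ∧
        lab (q.1.1, q.2.1) = i)).card ≤ C₁ * Cd := by
  intro i
  refine le_trans ?_ (Nat.mul_le_mul_right Cd (hC₁ i))
  rw [mul_comm _ Cd]
  refine Finset.card_le_mul_card_image_of_maps_to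
    (f := fun q : (α × β) × (α × β) => (q.1.1, q.2.1)) ?_ Cd ?_
  · rintro ⟨⟨x, y⟩, ⟨x', y'⟩⟩ hq
    simp only [mem_filter, mem_product] at hq ⊢
    obtain ⟨⟨⟨hx, hy⟩, hx', hy'⟩, hs, hl⟩ := hq
    refine ⟨⟨hx, hx'⟩, ?_, hl⟩
    have h2 : c1 y ≡ 0 [MOD M] :=
      (Nat.modEq_zero_iff_dvd).2 ((dvd_mul_right _ _).trans (hc1 y hy))
    have h3 := ((Nat.ModEq.refl (n := M) (c x)).add h2).add
      ((he' x' hx' y' hy').of_dvd (dvd_mul_right _ _))
    have h4 : c x + c1 y + c' (x', y') ≡ c x + e' x' [MOD M] := by simpa using h3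
    exact h4.symm.trans (hs.of_dvd (dvd_mul_right _ _))
  · rintro ⟨x, x'⟩ _
    rcases Finset.eq_empty_or_nonempty ((((X ×ˢ Y) ×ˢ (X' ×ˢ Y')).filter
      (fun q => (c q.1.1 + c1 q.1.2) + c' q.2 ≡ n [MOD M * Q] ∧
        lab (q.1.1, q.2.1) = i)).filter (fun q => (q.1.1, q.2.1) = (x, x'))) with h0 | ⟨q0, hq0⟩
    · rw [h0]; simp
    · refine le_trans (card_le_card_of_injOn
        (fun q : (α × β) × (α × β) => ((q.1.2, q.2.2) : β × β)) ?_ ?_)
        (hdec (c1 q0.1.2 + g' q0.2.2))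
      · rintro ⟨⟨z, y⟩, ⟨z', y'⟩⟩ hq
        obtain ⟨⟨w, v⟩, ⟨w', v'⟩⟩ := q0
        simp only [coe_filter, mem_filter, mem_product, Set.mem_ofPred_eq,
          Prod.mk.injEq] at hq hq0 ⊢
        obtain ⟨⟨⟨⟨hz, hy⟩, hz', hy'⟩, hs, _⟩, e1, e2⟩ := hq
        obtain ⟨⟨⟨⟨hw, hv⟩, hw', hv'⟩, hs0, _⟩, e3, e4⟩ := hq0
        rw [e1] at hs
        rw [e2] at hs hz'
        rw [e3] at hs0
        rw [e4] at hs0 hw'
        refine ⟨⟨hy, hy'⟩, ?_⟩
        have h1 := (hs.trans hs0.symm).of_dvd (dvd_mul_left Q M)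
        have h2 := (Nat.ModEq.refl (n := Q) (c x + c1 y)).add (hg' x' hz' y' hy')
        have h3 := (Nat.ModEq.refl (n := Q) (c x + c1 v)).add (hg' x' hw' v' hv')
        have h4 := (h2.symm.trans h1).trans h3
        rw [add_assoc, add_assoc] at h4
        exact Nat.ModEq.add_left_cancel' _ h4
      · rintro ⟨⟨z, y⟩, ⟨z', y'⟩⟩ hq ⟨⟨w, v⟩, ⟨w', v'⟩⟩ hq' hh
        simp only [coe_filter, mem_filter, mem_product, Set.mem_ofPred_eq,
          Prod.mk.injEq] at hq hq' hh ⊢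
        obtain ⟨_, rfl, rfl⟩ := hq
        obtain ⟨_, rfl, rfl⟩ := hq'
        exact ⟨⟨rfl, hh.1⟩, rfl, hh.2⟩

/-- the first static level may be moved into the label level -/
theorem scaleSet_combine [DecidableEq β] (X : Finset α) (c : α → ℕ) (r : ℕ)
    (Y : ℕ → Finset β) (cc : ℕ → β → ℕ) (U : Finset ℕ) :
    scaleSet X c (r + 1) Y cc U =
      scaleSet (X ×ˢ Y 0) (fun q => c q.1 + cc 0 q.2) r (fun t => Y (t + 1))
        (fun t => cc (t + 1)) U := by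
  ext a
  simp only [scaleSet, mem_image, mem_product, Fintype.mem_piFinset]
  constructor
  · rintro ⟨⟨⟨x, y⟩, u⟩, ⟨⟨hx, hy⟩, hu⟩, rfl⟩
    refine ⟨(((x, y 0), fun t => y t.succ), u), ⟨⟨⟨hx, ?_⟩, ?_⟩, hu⟩, ?_⟩
    · simpa using hy 0
    · intro t
      simpa using hy t.succ
    · simp only [Fin.sum_univ_succ, Fin.val_zero, Fin.val_succ]
      ring
  · rintro ⟨⟨⟨⟨x, y0⟩, y⟩, u⟩, ⟨⟨⟨hx, hy0⟩, hy⟩, hu⟩, rfl⟩
    refine ⟨((x, Fin.cons y0 y), u), ⟨⟨hx, ?_⟩, hu⟩, ?_⟩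
    · intro t
      refine Fin.cases ?_ (fun t => ?_) t
      · simpa using hy0
      · simpa using hy t
    · simp only [Fin.sum_univ_succ, Fin.cons_zero, Fin.cons_succ, Fin.val_zero, Fin.val_succ]
      ring

end Pool.Agent.Helper54.T5
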