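import Pool.Agent.Helper54.T5.Tower2
import Pool.Agent.Helper54.T5.Split

/-!
# T5b, pairs across the split with a common front below the joint level

`R_block_split`: as `R_block` of helper57.  Levels of the upper state: label level (code `c`,
front `F 0`), static levels `t = 0, ..., r` (moduli `Q t`, fronts `F (t + 1)`), where the level `0`
has just been split off.  Lower state: joint code `c''` of `(x', y')` (front `F' 1`, modulus
`Q 0`), static levels `t = 1, ..., r`.  Common front `NN p e = F (r + 1) = F' (r + 1)`.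
-/

set_option autoImplicit false

namespace Pool.Agent.Helper54.T5

open Finset Pool.Agent.Helper22.HW Pool.Agent.Helper27.T4 Pool.Agent.Helper3.T4
  Pool.Agent.Helper57.T5

theorem LL_succ' (Q : ℕ → ℕ) (t : ℕ) : LL Q (t + 1) = Q 0 * LL (fun i => Q (i + 1)) t := by
  unfold LL
  rw [Finset.prod_range_succ']
  ring

variable {ι : Type*} [Fintype ι] [DecidableEq ι] {p : ι → ℕ}

/-- **Block R across the split.** -/
theorem R_block_split {β : Type*} [DecidableEq β] (hp : ∀ i, (p i).Prime) (hp2 : ∀ i, p i ≠ 2)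
    (hinj : Function.Injective p) (rk : ι → ℕ) (g : ι) (e b A : ι → ℕ)
    (hg : ∀ i, i ≠ g → b i = e i) (hbe : b g ≤ e g)
    (hbe2 : e g ≤ 2 * b g + 1) (he0 : 0 < e g) (hA : ∀ i, i ≠ g → A i = b i) (hAg : b g ≤ A g)
    (ρ ρ' : ∀ i, (ι → ℕ) → ZMod (p i ^ e i))
    (hρ : ∀ i x y, (∀ j, rk j < rk i → x j = y j) → ρ i x = ρ i y)
    (hρ' : ∀ i x y, (∀ j, rk j < rk i → x j = y j) → ρ' i x = ρ' i y)
    (X X' : Finset (ι → ℕ)) (hX : Adm p A X) (hX' : Adm p b X') (c : (ι → ℕ) → ℕ)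
    (c'' : (ι → ℕ) × β → ℕ) (r : ℕ) (Y Y' : ℕ → Finset β) (cc cc' : ℕ → β → ℕ) (gg : β → ℕ)
    (hcode : ∀ x ∈ X, ∀ i, ((c x : ℕ) : ZMod (p i ^ e i)) = Lg (p i) (e i) (x i) + ρ i x)
    (hcode' : ∀ x ∈ X', ∀ y ∈ Y' 0, ∀ i,
      ((c'' (x, y) : ℕ) : ZMod (p i ^ e i)) = Lg (p i) (e i) (x i) + ρ' i x)
    (Q Cd : ℕ → ℕ) (F F' : ℕ → ℕ) (U U' : Finset ℕ) {I R : ℕ} (n : ℕ)
    (hgg : ∀ x ∈ X', ∀ y ∈ Y' 0, c'' (x, y) ≡ gg y [MOD Q 0])
    (hQ : ∀ t < r + 1, 0 < Q t) (hcop : (LL Q (r + 1)).Coprime (p g))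
    (hFr : F (r + 1) = NN p e) (hFr' : F' (r + 1) = NN p e)
    (hF : ∀ t ≤ r + 1, NN p e ∣ F t) (hF' : ∀ t ≤ r + 1, 1 ≤ t → NN p e ∣ F' t)
    (hFB : ∀ t < r + 1, 2 * (F t * LL Q t) ≤ F (t + 1) * LL Q (t + 1))
    (hFB' : ∀ t < r + 1, 1 ≤ t → 2 * (F' t * LL Q t) ≤ F' (t + 1) * LL Q (t + 1))
    (hc : ∀ x ∈ X, c x < F 0)
    (hc'' : ∀ x ∈ X', ∀ y ∈ Y' 0, c'' (x, y) < F' 1 * LL Q 1)
    (hcc : ∀ t < r + 1, ∀ y ∈ Y t, cc t y < F (t + 1) * LL Q (t + 1))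
    (hcc' : ∀ t < r + 1, 1 ≤ t → ∀ y ∈ Y' t, cc' t y < F' (t + 1) * LL Q (t + 1))
    (hd : ∀ t < r + 1, ∀ y ∈ Y t, F (t + 1) * LL Q t ∣ cc t y)
    (hd' : ∀ t < r + 1, 1 ≤ t → ∀ y ∈ Y' t, F' (t + 1) * LL Q t ∣ cc' t y)
    (hdec0 : ∀ T, ((Y 0 ×ˢ Y' 0).filter (fun q => cc 0 q.1 + gg q.2 ≡ T [MOD Q 0])).card ≤ Cd 0)
    (hdec : ∀ t < r + 1, 1 ≤ t → Dec (Y t) (Y' t) (cc t) (cc' t) (Q t) (Cd t))
    (hI : p g ^ ((A g - b g) / 2) ≤ I)
    (hU : ∀ u ∈ U, NN p b * LL Q (r + 1) ∣ u) (hU' : ∀ u ∈ U', NN p b * LL Q (r + 1) ∣ u)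
    (hR : ∀ α E N : ℕ, E.Coprime (p g) → ∀ κ₂ < 4, cN U U' I (NN p b * LL Q (r + 1))
      (p g ^ (e g - b g)) (fun i => α + E * i) κ₂ (NN p b * LL Q (r + 1) * N) ≤ R) :
    ((scaleSet X c (r + 1) Y cc U ×ˢ scaleSet (X' ×ˢ Y' 0) c'' r (fun t => Y' (t + 1))
        (fun t => cc' (t + 1)) U').filter
      (fun a => a.1 + a.2 = n)).card ≤ (∏ i, (2 * (p i - 1))) *
        (((∏ i, (2 * (p i - 1))) * ∏ t ∈ range (r + 1), Cd t) * (4 * R)) := by
  classical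
  have hbe' : ∀ i, b i ≤ e i := by
    intro i
    by_cases hi : i = g
    · subst hi; exact hbe
    · rw [hg i hi]
  have hNb := NN_pos hp b
  set D := p g ^ (e g - b g) with hDdef
  have hD : 0 < D := pow_pos (hp g).pos _
  have hsplit : NN p e = NN p b * D := NN_split p e b g hg hbe
  set Q1 : ℕ → ℕ := fun t => Q (t + 1) with hQ1
  have hLL : ∀ t, LL Q (t + 1) = Q 0 * LL Q1 t := fun t => LL_succ' Q t
  have hcop0 : (Q 0).Coprime (p g) := by
    rw [hLL] at hcop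
    exact Nat.Coprime.coprime_mul_right hcop
  have hcop1 : (LL Q1 r).Coprime (p g) := by
    rw [hLL] at hcop
    exact Nat.Coprime.coprime_mul_left hcop
  obtain ⟨Qi0, hQi0c, hQi0⟩ := exists_inv_coprime (e g - b g) (hp g) hcop0
  obtain ⟨Qi, hQic, hQi⟩ := exists_inv_coprime (e g - b g) (hp g) hcop1
  have hQ0 : 0 < Q 0 := hQ 0 (Nat.succ_pos r)
  have hm : 0 < NN p b * Q 0 := Nat.mul_pos hNb hQ0
  -- the main part of the joint code
  set e' : (ι → ℕ) → ℕ := fun x => lc hp hinj 1 e ρ' x with he'def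
  have he'code : ∀ x ∈ X', ∀ i, ((e' x : ℕ) : ZMod (p i ^ e i)) =
      Lg (p i) (e i) (x i) + ρ' i x := by
    intro x _ i
    simp only [he'def]
    rw [lc, fc_cast hp hinj 1 (fun i => Nat.coprime_one_left _)]
  have he' : ∀ x' ∈ X', ∀ y' ∈ Y' 0, c'' (x', y') ≡ e' x' [MOD NN p b * D] := by
    intro x' hx' y' hy'
    rw [← hsplit, ← ZMod.natCast_eq_natCast_iff, natCast_eq_iff hp hinj]
    intro i
    rw [hcode' x' hx' y' hy' i, he'code x' hx' i]
  choose α E hE hcl using fun θ => label_class hp hp2 hinj rk g e b hg hbe hbe2 he0 ρ ρ' hρ hρ'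
    X X' c e' (fun x hx i => (hX x hx i).2.1) (fun x hx i => (hX' x hx i).2.1) hcode he'code n θ
  have hc1 : ∀ y ∈ Y 0, NN p b * D ∣ cc 0 y := by
    intro y hy
    have h1 := hd 0 (Nat.succ_pos r) y hy
    rw [LL_zero, mul_one] at h1
    rw [← hsplit]
    exact (hF 1 (by omega)).trans h1
  have hmain := scale_pair_gen (R := R) (I := I) (C₁ := (∏ i, (2 * (p i - 1))) * Cd 0)
    (D₂ := D) (m := NN p b * Q 0) (n := n) (Qi := Qi)
    (X ×ˢ Y 0) (X' ×ˢ Y' 0) (fun q => c q.1 + cc 0 q.2) c'' r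
    (fun t => Y (t + 1)) (fun t => Y' (t + 1)) (fun t => cc (t + 1)) (fun t => cc' (t + 1))
    Q1 (fun t => Cd (t + 1)) U U'
    (((X ×ˢ X').filter (fun q => c q.1 + e' q.2 ≡ n [MOD NN p b])).image (ty1 p rk g b))
    (fun q => ty1 p rk g b (q.1.1, q.2.1))
    (fun θ i => Qi0 * ((α θ + E θ * i) + (D - 1) * ((n / NN p b) % Q 0)))
    (fun q => lab1 p g b (q.1.1, q.2.1)) hm (fun t ht => hQ (t + 1) (by omega)) hD hQi
    ?_ ?_ ?_ ?_ ?_ ?_ ?_ ?_ ?_ ?_
  · rw [scaleSet_combine]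
    refine hmain.trans ?_
    have h1 := card_types hp hp2 rk g e b A hbe' hA ρ ρ' hρ hρ' X X' hX hX' c e'
      hcode he'code n
    refine (Nat.mul_le_mul_right _ h1).trans (le_of_eq ?_)
    rw [Finset.prod_range_succ' (fun t => Cd t) r]
    ring
  · rintro ⟨x, y0⟩ hq y hy
    rw [mem_product] at hq
    have h1 := tower_size (fun t => F t * LL Q t) (c x)
      (by simpa [LL_zero] using hc x hq.1) (r + 1) hFB
      (fun t => cc t ((Fin.cons y0 y : Fin (r + 1) → β) t)) ?_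
    · rw [Fin.sum_univ_succ] at h1
      simp only [Fin.cons_zero, Fin.cons_succ, Fin.val_zero, Fin.val_succ, hFr, hLL, hsplit] at h1
      calc c x + cc 0 y0 + ∑ t : Fin r, cc (t + 1) (y t)
          = c x + (cc 0 y0 + ∑ t : Fin r, cc (t + 1) (y t)) := by ring
        _ < 2 * (NN p b * D * (Q 0 * LL Q1 r)) := h1
        _ = 2 * (NN p b * Q 0 * D * LL Q1 r) := by ring
    · intro t
      refine Fin.cases ?_ (fun t => ?_) t
      · simpa using hcc 0 (Nat.succ_pos r) y0 hq.2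
      · simpa using hcc (t + 1) (by omega) (y t) (hy t)
  · rintro ⟨x', y0⟩ hq y hy
    rw [mem_product] at hq
    have h1 := tower_size (fun t => F' (t + 1) * LL Q (t + 1)) (c'' (x', y0))
      (hc'' x' hq.1 y0 hq.2) r (fun t ht => hFB' (t + 1) (by omega) (by omega))
      (fun t => cc' (t + 1) (y t)) (fun t => hcc' (t + 1) (by omega) (by omega) (y t) (hy t))
    simp only [hFr', hLL, hsplit] at h1
    refine h1.trans_le (le_of_eq ?_)
    ring
  · intro t ht y hy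
    have h1 := hd (t + 1) (by omega) y hy
    refine dvd_trans ?_ h1
    have h2 : NN p b * Q 0 * D * LL Q1 t = NN p e * LL Q (t + 1) := by
      rw [hsplit, hLL]; ring
    rw [h2]
    exact Nat.mul_dvd_mul_right (hF (t + 1 + 1) (by omega)) _
  · intro t ht y hy
    have h1 := hd' (t + 1) (by omega) (by omega) y hy
    refine dvd_trans ?_ h1
    have h2 : NN p b * Q 0 * D * LL Q1 t = NN p e * LL Q (t + 1) := by
      rw [hsplit, hLL]; ring
    rw [h2]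
    exact Nat.mul_dvd_mul_right (hF' (t + 1 + 1) (by omega) (by omega)) _
  · intro t ht
    exact hdec (t + 1) (by omega) (by omega)
  · rintro ⟨⟨x, y⟩, ⟨x', y'⟩⟩ hq hs
    simp only [mem_product] at hq
    obtain ⟨⟨hx, hy⟩, hx', hy'⟩ := hq
    simp only at hs ⊢
    have h1 : (c x + cc 0 y) + c'' (x', y') ≡ c x + e' x' [MOD NN p b * D] := by
      have h2 : cc 0 y ≡ 0 [MOD NN p b * D] := (Nat.modEq_zero_iff_dvd).2 (hc1 y hy)
      have h3 := ((Nat.ModEq.refl (n := NN p b * D) (c x)).add h2).add (he' x' hx' y' hy')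
      simpa using h3
    have h2 : c x + e' x' ≡ n [MOD NN p b] :=
      (h1.of_dvd (dvd_mul_right _ _)).symm.trans (hs.of_dvd (dvd_mul_right _ _))
    have hmem : (x, x') ∈ X ×ˢ X' := mem_product.2 ⟨hx, hx'⟩
    refine ⟨mem_image.2 ⟨(x, x'), mem_filter.2 ⟨hmem, h2⟩, rfl⟩, ?_, ?_⟩
    · have h3 := prod_lt_of_adm hp hX hX' hx hx' g
      rw [max_eq_left hAg, min_eq_right hAg] at h3
      exact h3.trans_le hI
    · exact split_class hNb hD hQi0 hs h1 (hcl _ (x, x') hmem h2 rfl) rfl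
  · intro θ i
    refine le_trans (card_le_card ?_) (split_dec (C₁ := ∏ i, (2 * (p i - 1))) (Cd := Cd 0)
      X X' (Y 0) (Y' 0) c (cc 0) c'' e' gg (M := NN p b) (D := D) (Q := Q 0) (n := n)
      (lab1 p g b) hc1 he' hgg ?_ hdec0 i)
    · intro q hq
      rw [mem_filter] at hq ⊢
      exact ⟨hq.1, hq.2.1, hq.2.2.2⟩
    · intro i
      refine card_pairs_label hp hp2 rk g e b A hbe' hA ρ ρ' hρ hρ' X X' hX hX' c e'
        hcode he'code n i _ ?_
      intro q hq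
      rw [mem_filter] at hq
      exact ⟨hq.1, hq.2.1, hq.2.2⟩
  · intro u hu
    have h1 := hU u hu
    rw [hLL, ← mul_assoc] at h1
    exact h1
  · intro u hu
    have h1 := hU' u hu
    rw [hLL, ← mul_assoc] at h1
    exact h1
  · intro θ _ κ₂ hκ
    have h0 : NN p b * Q 0 * LL Q1 r = NN p b * LL Q (r + 1) := by rw [hLL, mul_assoc]
    rw [h0]
    have h1 : (fun i => Qi * (Qi0 * ((α θ + E θ * i) + (D - 1) * ((n / NN p b) % Q 0)) +
          (D - 1) * (n / (NN p b * Q 0) % LL Q1 r)))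
        = (fun i => Qi * (Qi0 * (α θ + (D - 1) * ((n / NN p b) % Q 0)) +
          (D - 1) * (n / (NN p b * Q 0) % LL Q1 r)) + (Qi * (Qi0 * E θ)) * i) := by
      funext i; ring
    rw [h1]
    exact hR _ _ _ (Nat.Coprime.mul_left hQic (Nat.Coprime.mul_left hQi0c (hE θ))) κ₂ hκ

end Pool.Agent.Helper54.T5
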