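import Pool.Agent.Helper54.T5.SplitDefs

/-!
# T5b, across the split: the leaf and the count of the windows for J7S
-/

namespace Pool.Agent.Helper54.T5

open Finset

open Classical in
/-- the number of pairs of windows near `n`, the lower windows being counted trivially -/
theorem win_card (B B' : Finset ℕ) (A R n : ℕ)
    (h : ∀ y, (B.filter (fun b => y ≤ b ∧ b < y + A)).card ≤ R) :
    ((B ×ˢ B').filter (fun q => q.1 + q.2 ≤ n ∧ n < q.1 + q.2 + A)).card ≤ B'.card * R := by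
  rw [mul_comm]
  refine Finset.card_le_mul_card_image_of_maps_to (f := fun q : ℕ × ℕ => q.2) (t := B') ?_ R ?_
  · intro q hq
    rw [mem_filter, mem_product] at hq
    exact hq.1.2
  · intro b' hb'
    rcases Nat.lt_or_ge n b' with hn | hn
    · have h0 : (((B ×ˢ B').filter (fun q => q.1 + q.2 ≤ n ∧ n < q.1 + q.2 + A)).filter
          (fun q => q.2 = b')) = ∅ := by
        rw [Finset.filter_eq_empty_iff]
        intro q hq hb
        rw [mem_filter] at hq
        omega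
      rw [h0]
      simp
    · refine le_trans (card_le_card_of_injOn (fun q : ℕ × ℕ => q.1) ?_ ?_) (h (n - b' + 1 - A))
      · intro q hq
        rw [mem_coe, mem_filter, mem_filter, mem_product] at hq
        obtain ⟨⟨⟨h1, h2⟩, h3, h4⟩, h5⟩ := hq
        refine mem_coe.2 (mem_filter.2 ⟨h1, ?_, ?_⟩)
        · show n - b' + 1 - A ≤ q.1
          omega
        · show q.1 < n - b' + 1 - A + A
          omega
      · intro q hq q' hq' hqq
        rw [mem_coe, mem_filter] at hq hq'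
        exact Prod.ext hqq (hq.2.trans hq'.2.symm)

open Classical in
/-- **The leaf across the split**: the vector `y2` of the level which has just been split off
(upper state), the vector `y` of the joint code (lower state), and the deeper windows. -/
theorem leaf_split {γ δ : Type*} {Q Cd R2 : ℕ} (Y : Finset γ) (Y2 : Finset δ)
    (B1 B' : Finset ℕ) (c2 : δ → ℕ) (u g : γ → ℕ) (hu : ∀ y ∈ Y, u y ≡ g y [MOD Q])
    (hB1 : ∀ b ∈ B1, Q ∣ b) (hB' : ∀ b ∈ B', Q ∣ b)
    (hdec : ∀ T, ((Y2 ×ˢ Y).filter (fun q => c2 q.1 + g q.2 ≡ T [MOD Q])).card ≤ Cd)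
    (hR : ∀ T, ((B1 ×ˢ B').filter (fun q => q.1 + q.2 = T)).card ≤ R2) (T : ℕ) :
    ((Y ×ˢ (((Y2 ×ˢ B1).image (fun z => c2 z.1 + z.2)) ×ˢ B')).filter
      (fun q => u q.1 + (q.2.1 + q.2.2) = T)).card ≤ Cd * R2 := by
  set S := ((Y2 ×ˢ Y) ×ˢ (B1 ×ˢ B')).filter
    (fun q => u q.1.2 + ((c2 q.1.1 + q.2.1) + q.2.2) = T) with hS
  have h1 : (Y ×ˢ (((Y2 ×ˢ B1).image (fun z => c2 z.1 + z.2)) ×ˢ B')).filter
      (fun q => u q.1 + (q.2.1 + q.2.2) = T) ⊆
      S.image (fun q => (q.1.2, (c2 q.1.1 + q.2.1, q.2.2))) := by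
    rintro ⟨y, b, b'⟩ hq
    rw [mem_filter, mem_product, mem_product, mem_image] at hq
    obtain ⟨⟨hy, ⟨⟨y2, b1⟩, h2, h3⟩, hb'⟩, hT⟩ := hq
    rw [mem_product] at h2
    simp only at h3 hT hy hb' h2
    rw [mem_image]
    refine ⟨((y2, y), (b1, b')), ?_, ?_⟩
    · rw [hS, mem_filter, mem_product, mem_product, mem_product]
      exact ⟨⟨⟨h2.1, hy⟩, h2.2, hb'⟩, by simp only; rw [h3]; exact hT⟩
    · simp only [h3]
  refine (Finset.card_le_card h1).trans (Finset.card_image_le.trans ?_)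
  rw [mul_comm]
  refine le_trans (Finset.card_le_mul_card_image_of_maps_to
    (f := fun q : (δ × γ) × (ℕ × ℕ) => q.1)
    (t := (Y2 ×ˢ Y).filter (fun q => c2 q.1 + g q.2 ≡ T [MOD Q])) ?_ R2 ?_)
    (Nat.mul_le_mul_left R2 (hdec T))
  · rintro ⟨⟨y2, y⟩, ⟨b1, b'⟩⟩ hq
    rw [hS, mem_filter, mem_product, mem_product, mem_product] at hq
    obtain ⟨⟨⟨h2, h3⟩, h4, h5⟩, h6⟩ := hq
    rw [mem_filter, mem_product]
    refine ⟨⟨h2, h3⟩, ?_⟩
    simp only at h2 h3 h4 h5 h6 ⊢
    have e1 : b1 + b' ≡ 0 [MOD Q] :=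
      (Nat.modEq_zero_iff_dvd).2 (dvd_add (hB1 b1 h4) (hB' b' h5))
    have e2 : (c2 y2 + u y) + (b1 + b') ≡ (c2 y2 + g y) + 0 [MOD Q] :=
      Nat.ModEq.add (Nat.ModEq.add_left _ (hu y h3)) e1
    have e3 : (c2 y2 + u y) + (b1 + b') = T := by omega
    rw [e3] at e2
    exact e2.symm
  · rintro ⟨y2, y⟩ _
    rcases Finset.eq_empty_or_nonempty (S.filter (fun q => q.1 = (y2, y))) with h0 | ⟨q0, hq0⟩
    · rw [h0]
      simp
    · refine le_trans (card_le_card_of_injOn (fun q : (δ × γ) × (ℕ × ℕ) => q.2) ?_ ?_)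
        (hR (q0.2.1 + q0.2.2))
      · intro q hq
        rw [mem_coe, hS, mem_filter, mem_filter, mem_product, mem_product, mem_product] at hq
        rw [hS, mem_filter, mem_filter] at hq0
        obtain ⟨⟨⟨_, h4⟩, h6⟩, h7⟩ := hq
        obtain ⟨⟨_, h6'⟩, h7'⟩ := hq0
        rw [h7] at h6
        rw [h7'] at h6'
        refine mem_coe.2 (mem_filter.2 ⟨mem_product.2 h4, ?_⟩)
        show q.2.1 + q.2.2 = q0.2.1 + q0.2.2
        simp only at h6 h6'
        omega
      · intro q hq q' hq' hqq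
        rw [mem_coe, mem_filter] at hq hq'
        exact Prod.ext (hq.2.trans hq'.2.symm) hqq

end Pool.Agent.Helper54.T5
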