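import Pool.Agent.Helper54.T5.SplitFar
import Pool.Agent.Helper54.T5.SplitLeaf
import Pool.Agent.Helper12.T5.SplitJ

/-!
# T5b, across the split: J7S with the freshness (J4S, helper12) inside
-/

namespace Pool.Agent.Helper54.T5

open Finset Pool.Agent.Helper27.T4 Pool.Agent.Helper22.HW Pool.Agent.Helper22.SL
  Pool.Agent.Helper3.T5

variable {ι κ γ : Type*} [Fintype ι] [DecidableEq ι] [DecidableEq κ] {M : MP ι κ} {Mk : κ → ℕ}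

open Classical in
/-- **J7S**: across the split, fixed windows -/
theorem split_far (hM : M.Ok Mk) (hS : M.St) (hMk : ∀ k, 0 < Mk k) {K : Finset κ}
    (hK : ∀ x ∈ M.X, ∀ i, M.key i x ∈ K) (hK' : ∀ x ∈ M.X', ∀ i, M.key' i x ∈ K)
    {Q : ℕ} (hQ : ∀ i, Q.Coprime (M.p i)) (hQ0 : 0 < Q) (Y : Finset γ) (g : γ → ℕ)
    (B B' : Finset ℕ) (hB : ∀ b ∈ B, M.N0 ∣ b) (hB' : ∀ b ∈ B', M.N0 ∣ b) (Rl E1 n1 : ℕ)
    (hl : ∀ r T, ((Y ×ˢ (B ×ˢ B')).filter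
      (fun q => crt M.Ne' Q r (g q.1) + (q.2.1 + q.2.2) = T)).card ≤ Rl)
    (hE : ∀ n < n1, ((B ×ˢ B').filter (fun q => q.1 + q.2 ≤ n ∧
      n < q.1 + q.2 + (M.Ne + M.Ne' * Q))).card ≤ E1) {ρ : ℝ} (hρ : 0 ≤ ρ)
    (h : E1 * (Y.card * (M.C * M.Lam *
      (min (1 / (Q : ℝ)) ((M.Ne' : ℝ) / M.Ne) + 1 / M.q))) ≤ ρ) (m : ℕ) :
    PrG Mk K (fun w => ∃ n < n1, 2 * (M.C * Rl) * m <
      (((M.X ×ˢ M.X') ×ˢ (Y ×ˢ (B ×ˢ B'))).filter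
        (fun z => M.cd hM w z.1.1 + cdQ M hM Q g w z.1.2 z.2.1 + (z.2.2.1 + z.2.2.2) = n)).card)
      (n1 * ((M.q : ℝ) ^ 2 * ρ ^ (m + 1))) :=
  split_far_of hM hS hQ hQ0 Y g B B' hB hB' Rl E1 n1 hl hE
    (mul_nonneg (Nat.cast_nonneg _) (mul_nonneg (by positivity)
      (add_nonneg (le_min (by positivity) (by positivity)) (by positivity)))) h m
    (fun E τ hEτ => Pool.Agent.Helper12.T5.splitTuple hM hMk hK hK' hQ hQ0 Y g E τ hρ hEτ m)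

open Classical in
/-- **J7S, structured form**: the upper windows are `c2 y2 + b1` (vector `y2` of the new static
level), `R` bounds the windows in an interval of length `Ne + Ne' * Q`, the lower windows are
counted trivially. -/
theorem split_far_win {δ : Type*} (hM : M.Ok Mk) (hS : M.St) (hMk : ∀ k, 0 < Mk k) {K : Finset κ}
    (hK : ∀ x ∈ M.X, ∀ i, M.key i x ∈ K) (hK' : ∀ x ∈ M.X', ∀ i, M.key' i x ∈ K)
    {Q : ℕ} (hQ : ∀ i, Q.Coprime (M.p i)) (hQ0 : 0 < Q) (Y : Finset γ) (g : γ → ℕ)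
    (Y2 : Finset δ) (c2 : δ → ℕ) (B1 B' : Finset ℕ)
    (hc2 : ∀ y ∈ Y2, M.N0 ∣ c2 y) (hB1 : ∀ b ∈ B1, M.N0 * Q ∣ b) (hB' : ∀ b ∈ B', M.N0 * Q ∣ b)
    (Cd R2 R n1 : ℕ)
    (hdec : ∀ T, ((Y2 ×ˢ Y).filter (fun q => c2 q.1 + g q.2 ≡ T [MOD Q])).card ≤ Cd)
    (hR2 : ∀ T, ((B1 ×ˢ B').filter (fun q => q.1 + q.2 = T)).card ≤ R2)
    (hR : ∀ y, (((Y2 ×ˢ B1).image (fun z => c2 z.1 + z.2)).filter
      (fun b => y ≤ b ∧ b < y + (M.Ne + M.Ne' * Q))).card ≤ R) {ρ : ℝ} (hρ : 0 ≤ ρ)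
    (h : (B'.card * R : ℕ) * (Y.card * (M.C * M.Lam *
      (min (1 / (Q : ℝ)) ((M.Ne' : ℝ) / M.Ne) + 1 / M.q))) ≤ ρ) (m : ℕ) :
    PrG Mk K (fun w => ∃ n < n1, 2 * (M.C * (Cd * R2)) * m <
      (((M.X ×ˢ M.X') ×ˢ (Y ×ˢ (((Y2 ×ˢ B1).image (fun z => c2 z.1 + z.2)) ×ˢ B'))).filter
        (fun z => M.cd hM w z.1.1 + cdQ M hM Q g w z.1.2 z.2.1 + (z.2.2.1 + z.2.2.2) = n)).card)
      (n1 * ((M.q : ℝ) ^ 2 * ρ ^ (m + 1))) := by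
  refine split_far hM hS hMk hK hK' hQ hQ0 Y g _ B' ?_ ?_ (Cd * R2) (B'.card * R) n1 ?_ ?_ hρ h m
  · intro b hb
    rw [mem_image] at hb
    obtain ⟨⟨y, b1⟩, h1, rfl⟩ := hb
    rw [mem_product] at h1
    exact dvd_add (hc2 y h1.1) ((dvd_mul_right _ _).trans (hB1 b1 h1.2))
  · intro b hb
    exact (dvd_mul_right _ _).trans (hB' b hb)
  · intro r T
    exact leaf_split Y Y2 B1 B' c2 (fun y => crt M.Ne' Q r (g y)) g
      (fun y _ => crt_right (coprime_Ne' hQ) r (g y))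
      (fun b hb => (dvd_mul_left _ _).trans (hB1 b hb))
      (fun b hb => (dvd_mul_left _ _).trans (hB' b hb)) hdec hR2 T
  · intro n _
    exact win_card _ B' _ R n hR

end Pool.Agent.Helper54.T5
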