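import Pool.Agent.Helper54.T5.SplitDefs
import Pool.Agent.Helper3.T5.J0

/-!
# T5b, across the split, distance at least `C` times the size of the old top level (J7S)
-/

namespace Pool.Agent.Helper54.T5

open Finset Pool.Agent.Helper27.T4 Pool.Agent.Helper22.HW Pool.Agent.Helper22.SL
  Pool.Agent.Helper3.T5

variable {ι κ γ : Type*} [Fintype ι] [DecidableEq ι] {M : MP ι κ} {Mk : κ → ℕ}

/-- the modulus `Q` is prime to the range of the lower code -/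
theorem coprime_Ne' {Q : ℕ} (hQ : ∀ i, Q.Coprime (M.p i)) : M.Ne'.Coprime Q := by
  unfold MP.Ne' NN
  exact Nat.Coprime.prod_left (fun i _ => Nat.Coprime.pow_left _ (hQ i).symm)

theorem cdQ_lt (hM : M.Ok Mk) {Q : ℕ} (hQ : ∀ i, Q.Coprime (M.p i)) (hQ0 : 0 < Q) (g : γ → ℕ)
    (w : κ → ℕ) (x : ι → ℕ) (y : γ) : cdQ M hM Q g w x y < M.Ne' * Q :=
  crt_lt (coprime_Ne' hQ) (NN_pos hM.prime _) hQ0 _ _

theorem cdQ_left (hM : M.Ok Mk) {Q : ℕ} (hQ : ∀ i, Q.Coprime (M.p i)) (g : γ → ℕ)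
    (w : κ → ℕ) (x : ι → ℕ) (y : γ) : cdQ M hM Q g w x y ≡ M.cd' hM w x [MOD M.Ne'] :=
  crt_left (coprime_Ne' hQ) _ _

theorem cdQ_right (hM : M.Ok Mk) {Q : ℕ} (hQ : ∀ i, Q.Coprime (M.p i)) (g : γ → ℕ)
    (w : κ → ℕ) (x : ι → ℕ) (y : γ) : cdQ M hM Q g w x y ≡ g y [MOD Q] :=
  crt_right (coprime_Ne' hQ) _ _

variable [DecidableEq κ]

open Classical in
/-- **J7S**: across the split, fixed windows; the freshness (J4S) is a hypothesis -/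
theorem split_far_of (hM : M.Ok Mk) (hS : M.St) {K : Finset κ}
    {Q : ℕ} (hQ : ∀ i, Q.Coprime (M.p i)) (hQ0 : 0 < Q) (Y : Finset γ) (g : γ → ℕ)
    (B B' : Finset ℕ) (hB : ∀ b ∈ B, M.N0 ∣ b) (hB' : ∀ b ∈ B', M.N0 ∣ b) (Rl E1 n1 : ℕ)
    (hl : ∀ r T, ((Y ×ˢ (B ×ˢ B')).filter
      (fun q => crt M.Ne' Q r (g q.1) + (q.2.1 + q.2.2) = T)).card ≤ Rl)
    (hE : ∀ n < n1, ((B ×ˢ B').filter (fun q => q.1 + q.2 ≤ n ∧
      n < q.1 + q.2 + (M.Ne + M.Ne' * Q))).card ≤ E1) {ρ X0 : ℝ} (hX0 : 0 ≤ X0)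
    (h : E1 * X0 ≤ ρ) (m : ℕ)
    (hTup : ∀ (E : Finset (ℕ × ℕ)) (τ : ℕ × ℕ → ℕ), (E.card : ℝ) * X0 ≤ ρ →
      PrG Mk K (fun w => ∃ T : Finset (((ι → ℕ) × (ι → ℕ)) × (γ × (ℕ × ℕ))), T.card = m + 1 ∧
        (∀ t ∈ T, t.1.1 ∈ M.X ∧ t.1.2 ∈ M.X' ∧ t.2.1 ∈ Y ∧ t.2.2 ∈ E ∧
          M.cd hM w t.1.1 + cdQ M hM Q g w t.1.2 t.2.1 = τ t.2.2) ∧ M.Free T)
        ((M.q : ℝ) ^ 2 * ρ ^ (m + 1))) :
    PrG Mk K (fun w => ∃ n < n1, 2 * (M.C * Rl) * m <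
      (((M.X ×ˢ M.X') ×ˢ (Y ×ˢ (B ×ˢ B'))).filter
        (fun z => M.cd hM w z.1.1 + cdQ M hM Q g w z.1.2 z.2.1 + (z.2.2.1 + z.2.2.2) = n)).card)
      (n1 * ((M.q : ℝ) ^ 2 * ρ ^ (m + 1))) := by
  have h1 : ∀ n ∈ range n1, ((((B ×ˢ B').filter
      (fun q => q.1 + q.2 ≤ n ∧ n < q.1 + q.2 + (M.Ne + M.Ne' * Q))).card : ℕ) : ℝ) * X0 ≤ ρ := by
    intro n hn
    refine le_trans (mul_le_mul_of_nonneg_right ?_ hX0) h
    exact_mod_cast hE n (mem_range.1 hn)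
  have key := PrG_exists (Mk := Mk) (K := K) (range n1)
    (fun n hn => hTup _ (fun q : ℕ × ℕ => n - (q.1 + q.2)) (h1 n hn))
  refine PrG_mono ?_ (le_of_eq ?_) key
  · rintro r _ ⟨n, hn, hs⟩
    set w := ext K r with hw
    set H := ((M.X ×ˢ M.X') ×ˢ (Y ×ˢ (B ×ˢ B'))).filter
        (fun z => M.cd hM w z.1.1 + cdQ M hM Q g w z.1.2 z.2.1 + (z.2.2.1 + z.2.2.2) = n) with hH
    have hmem : ∀ h ∈ H, ((h.1.1 ∈ M.X ∧ h.1.2 ∈ M.X') ∧ (h.2.1 ∈ Y ∧ h.2.2.1 ∈ B ∧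
        h.2.2.2 ∈ B')) ∧
        M.cd hM w h.1.1 + cdQ M hM Q g w h.1.2 h.2.1 + (h.2.2.1 + h.2.2.2) = n := by
      intro h hh
      rw [hH, mem_filter, mem_product, mem_product, mem_product, mem_product] at hh
      exact hh
    have hex : ∃ T ⊆ H, T.card = m + 1 ∧ M.Free T := by
      refine exists_free hM hS w n H Rl m ?_ ?_ hs
      · intro h hh
        obtain ⟨⟨h1, h3⟩, h2⟩ := hmem h hh
        rw [mem_prs]
        refine ⟨h1, fun i => ?_⟩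
        have hd : M.p i ^ M.c' i ∣ h.2.2.1 + h.2.2.2 :=
          (pow_dvd_NN M.p M.c' i).trans (dvd_add (hB _ h3.2.1) (hB' _ h3.2.2))
        have hd2 : M.p i ^ M.c' i ∣ M.Ne' :=
          (pow_dvd_pow _ (hM.ce' i)).trans (pow_dvd_NN M.p M.e' i)
        rw [← h2]
        have h5 : M.cd hM w h.1.1 + cdQ M hM Q g w h.1.2 h.2.1 + (h.2.2.1 + h.2.2.2) ≡
            M.cd hM w h.1.1 + M.cd' hM w h.1.2 + 0 [MOD M.p i ^ M.c' i] :=
          Nat.ModEq.add (Nat.ModEq.add_left _ ((cdQ_left hM hQ g w _ _).of_dvd hd2))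
            ((Nat.modEq_zero_iff_dvd).2 hd)
        exact h5.symm
      · intro T hT hT1
        rcases T.eq_empty_or_nonempty with rfl | ⟨t0, ht0⟩
        · simp
        refine le_trans ?_ (hl (M.cd' hM w t0.1.2) (n - M.cd hM w t0.1.1))
        refine card_le_card_of_injOn (fun t => t.2) ?_ ?_
        · intro t ht
          have ht' := mem_coe.1 ht
          obtain ⟨⟨_, h3⟩, h2⟩ := hmem t (hT ht')
          have h6 := hT1 t ht' t0 ht0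
          rw [h6] at h2
          simp only [coe_filter, Set.mem_ofPred_eq, mem_product]
          refine ⟨h3, ?_⟩
          unfold cdQ at h2
          omega
        · intro a ha b hb hab
          exact Prod.ext (hT1 a (mem_coe.1 ha) b (mem_coe.1 hb)) hab
    obtain ⟨T, hT, hTc, hTf⟩ := hex
    refine ⟨n, mem_range.2 hn, T, hTc, ?_, hTf⟩
    intro t ht
    obtain ⟨⟨h1, h3⟩, h2⟩ := hmem t (hT ht)
    have h4 := cd_lt hM w t.1.1
    have h5 := cdQ_lt hM hQ hQ0 g w t.1.2 t.2.1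
    refine ⟨h1.1, h1.2, h3.1, ?_, ?_⟩
    · rw [mem_filter, mem_product]
      exact ⟨h3.2, by omega, by omega⟩
    · show M.cd hM w t.1.1 + cdQ M hM Q g w t.1.2 t.2.1 = n - (t.2.2.1 + t.2.2.2)
      omega
  · rw [sum_const, card_range, nsmul_eq_mul]

end Pool.Agent.Helper54.T5
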