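import Pool.Agent.Helper57.T5.RBlock

/-!
# The reduction to the finest common front, general form

As `scale_pair_card_ty` of helper57; the label levels of the two sides have different types and the
sizes are hypotheses.
-/

set_option autoImplicit false

namespace Pool.Agent.Helper54.T5

open Finset Pool.Agent.Helper22.HW Pool.Agent.Helper57.T5

/-- **Reduction of a pair of scales to the finest common front, general form.** -/
theorem scale_pair_gen {α α' β τ : Type*} [DecidableEq α] [DecidableEq α'] [DecidableEq β]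
    [DecidableEq τ] (X : Finset α) (X' : Finset α') (c : α → ℕ) (c' : α' → ℕ) (r : ℕ)
    (Y Y' : ℕ → Finset β) (cc cc' : ℕ → β → ℕ)
    (Q Cd : ℕ → ℕ) (U U' : Finset ℕ) {m D₂ I R C₁ n : ℕ} (Ty : Finset τ)
    (ty : α × α' → τ) (cl : τ → ℕ → ℕ) (lab : α × α' → ℕ)
    (hm : 0 < m) (hQ : ∀ t < r, 0 < Q t) (hD₂ : 0 < D₂) {Qi : ℕ}
    (hQi : LL Q r * Qi ≡ 1 [MOD D₂])
    (hsz : ∀ x ∈ X, ∀ y : Fin r → β, (∀ t : Fin r, y t ∈ Y t) →
      c x + ∑ t : Fin r, cc t (y t) < 2 * (m * D₂ * LL Q r))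
    (hsz' : ∀ x ∈ X', ∀ y : Fin r → β, (∀ t : Fin r, y t ∈ Y' t) →
      c' x + ∑ t : Fin r, cc' t (y t) < 2 * (m * D₂ * LL Q r))
    (hd : ∀ t < r, ∀ y ∈ Y t, m * D₂ * LL Q t ∣ cc t y)
    (hd' : ∀ t < r, ∀ y ∈ Y' t, m * D₂ * LL Q t ∣ cc' t y)
    (hdec : ∀ t < r, Dec (Y t) (Y' t) (cc t) (cc' t) (Q t) (Cd t))
    (hlab : ∀ q ∈ X ×ˢ X', c q.1 + c' q.2 ≡ n [MOD m] →
      ty q ∈ Ty ∧ lab q < I ∧ (c q.1 + c' q.2) / m ≡ cl (ty q) (lab q) [MOD D₂])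
    (hC₁ : ∀ θ i, ((X ×ˢ X').filter
      (fun q => c q.1 + c' q.2 ≡ n [MOD m] ∧ ty q = θ ∧ lab q = i)).card ≤ C₁)
    (hU : ∀ u ∈ U, m * LL Q r ∣ u) (hU' : ∀ u ∈ U', m * LL Q r ∣ u)
    (hR : ∀ θ ∈ Ty, ∀ κ₂ < 4, cN U U' I (m * LL Q r) D₂
      (fun i => Qi * (cl θ i + (D₂ - 1) * ((n / m) % LL Q r))) κ₂
      (m * LL Q r * ((n / m) / LL Q r)) ≤ R) :
    ((scaleSet X c r Y cc U ×ˢ scaleSet X' c' r Y' cc' U').filter
      (fun a => a.1 + a.2 = n)).card ≤ Ty.card * ((C₁ * ∏ t ∈ range r, Cd t) * (4 * R)) := by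
  classical
  set s₁ : α × α' → ℕ := fun q => c q.1 + c' q.2 - n % m with hs₁
  set YY : ℕ → Finset (β × β) := fun t => Y t ×ˢ Y' t with hYY
  set σ : ℕ → β × β → ℕ := fun t y => cc t y.1 + cc' t y.2 with hσd
  set n' := m * (n / m) with hn'
  have hnn : n' + n % m = n := by rw [hn']; exact Nat.div_add_mod n m
  have hn'm : n' / m = n / m := by rw [hn', Nat.mul_div_cancel_left _ hm]
  -- the configurations of the label level
  set Λ₀ : Finset (α × α') := (X ×ˢ X').filter (fun q => c q.1 + c' q.2 ≡ n [MOD m]) with hΛ0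
  set Λ₁ : τ → Finset (α × α') := fun θ => Λ₀.filter (fun q => ty q = θ) with hΛ
  have hsub0 : ∀ θ, ∀ q ∈ Λ₁ θ, q ∈ Λ₀ := fun θ q hq => (mem_filter.1 hq).1
  have hmodΛ : ∀ q ∈ Λ₀, (c q.1 + c' q.2) % m = n % m := fun q hq => (mem_filter.1 hq).2
  have hleΛ : ∀ q ∈ Λ₀, n % m ≤ c q.1 + c' q.2 := fun q hq => by
    rw [← hmodΛ q hq]; exact Nat.mod_le _ _
  have hs₁m : ∀ q ∈ Λ₀, s₁ q = m * ((c q.1 + c' q.2) / m) := by
    intro q hq
    have h1 := Nat.div_add_mod (c q.1 + c' q.2) m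
    rw [hmodΛ q hq] at h1
    simp only [hs₁]
    omega
  have hone : ∀ θ ∈ Ty, (((Λ₁ θ ×ˢ Fintype.piFinset (fun t : Fin r => YY t)) ×ˢ
      (U ×ˢ U')).filter (fun t => (s₁ t.1.1 + ∑ i : Fin r, σ i (t.1.2 i)) + (t.2.1 + t.2.2)
        = n')).card ≤ (C₁ * ∏ t ∈ range r, Cd t) * (4 * R) := by
    intro θ hθ
    refine tower_card (h := 4) (R := R) (I := I) (C₁ := C₁) (n := n') (cl := cl θ)
      (Λ₁ θ) s₁ lab r YY σ Q Cd U U' hm hQ hD₂ hQi ?_ ?_ ?_ ?_ ?_ ?_ ?_ hU hU' ?_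
    · -- sizes
      intro q hq y hy
      have hq' := (mem_product.1 (mem_filter.1 (hsub0 θ q hq)).1)
      have hy1 : ∀ t : Fin r, (y t).1 ∈ Y t := fun t => (mem_product.1 (hy t)).1
      have hy2 : ∀ t : Fin r, (y t).2 ∈ Y' t := fun t => (mem_product.1 (hy t)).2
      have h1 := hsz q.1 hq'.1 (fun t => (y t).1) hy1
      have h2 := hsz' q.2 hq'.2 (fun t => (y t).2) hy2
      simp only [hs₁, hσd, Finset.sum_add_distrib]
      omega
    · intro q hq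
      rw [hs₁m q (hsub0 θ q hq)]
      exact dvd_mul_right _ _
    · intro q hq
      rw [hs₁m q (hsub0 θ q hq), Nat.mul_div_cancel_left _ hm]
      have h1 := (hlab q (mem_filter.1 (hsub0 θ q hq)).1 (mem_filter.1 (hsub0 θ q hq)).2).2.2
      rw [(mem_filter.1 hq).2] at h1
      exact h1
    · intro q hq
      exact (hlab q (mem_filter.1 (hsub0 θ q hq)).1 (mem_filter.1 (hsub0 θ q hq)).2).2.1
    · intro i
      refine le_trans (card_le_card ?_) (hC₁ θ i)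
      intro q hq
      simp only [hΛ, hΛ0, mem_filter] at hq ⊢
      exact ⟨hq.1.1.1, hq.1.1.2, hq.1.2, hq.2⟩
    · intro t ht y hy
      have hy' := mem_product.1 hy
      exact dvd_add (hd t ht _ hy'.1) (hd' t ht _ hy'.2)
    · intro t ht T
      exact hdec t ht T
    · intro κ₂ hκ
      rw [hn'm]
      exact hR θ hθ κ₂ hκ
  refine le_trans (card_le_card (t := (Ty.biUnion (fun θ =>
      ((Λ₁ θ ×ˢ Fintype.piFinset (fun t : Fin r => YY t)) ×ˢ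
      (U ×ˢ U')).filter (fun t => (s₁ t.1.1 + ∑ i : Fin r, σ i (t.1.2 i)) + (t.2.1 + t.2.2)
        = n'))).image (fun t => (((c t.1.1.1 + ∑ i : Fin r, cc i (t.1.2 i).1) + t.2.1,
          (c' t.1.1.2 + ∑ i : Fin r, cc' i (t.1.2 i).2) + t.2.2) : ℕ × ℕ))) ?_)
    (card_image_le.trans (card_biUnion_le.trans
      ((Finset.sum_le_card_nsmul _ _ _ hone).trans (by rw [smul_eq_mul]))))
  rintro ⟨a, a'⟩ ha
  simp only [mem_filter, mem_product, scaleSet, mem_image] at ha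
  obtain ⟨⟨⟨⟨⟨x, y⟩, u⟩, ⟨⟨hx, hy⟩, hu⟩, hxa⟩, ⟨⟨⟨x', y'⟩, u'⟩, ⟨⟨hx', hy'⟩, hu'⟩, hxa'⟩⟩,
    he⟩ := ha
  simp only at hx hy hu hxa hx' hy' hu' hxa' he
  rw [Fintype.mem_piFinset] at hy hy'
  -- divisibility of everything but the label codes
  have hmD : ∀ t : ℕ, m ∣ m * D₂ * LL Q t := fun t =>
    (Dvd.intro _ rfl : m ∣ m * D₂).trans (Dvd.intro _ rfl)
  have hmd : ∀ t : Fin r, m ∣ cc t (y t) := fun t => (hmD t).trans (hd t t.2 (y t) (hy t))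
  have hmd' : ∀ t : Fin r, m ∣ cc' t (y' t) := fun t => (hmD t).trans (hd' t t.2 (y' t) (hy' t))
  have hmu : m ∣ u := (Dvd.intro _ rfl).trans (hU u hu)
  have hmu' : m ∣ u' := (Dvd.intro _ rfl).trans (hU' u' hu')
  have hrest : m ∣ (∑ t : Fin r, cc t (y t) + ∑ t : Fin r, cc' t (y' t)) + (u + u') :=
    dvd_add (dvd_add (Finset.dvd_sum (fun t _ => hmd t)) (Finset.dvd_sum (fun t _ => hmd' t)))
      (dvd_add hmu hmu')
  have hsum : (c x + c' x') + ((∑ t : Fin r, cc t (y t) + ∑ t : Fin r, cc' t (y' t)) + (u + u'))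
      = n := by
    rw [← he, ← hxa, ← hxa']; ring
  have hmod : c x + c' x' ≡ n [MOD m] := by
    have h1 : (c x + c' x') + ((∑ t : Fin r, cc t (y t) + ∑ t : Fin r, cc' t (y' t)) + (u + u'))
        ≡ (c x + c' x') + 0 [MOD m] :=
      Nat.ModEq.add_left _ ((Nat.modEq_zero_iff_dvd).2 hrest)
    rw [hsum] at h1
    simpa using h1.symm
  have hxΛ : (x, x') ∈ Λ₀ := by
    rw [hΛ0, mem_filter, mem_product]
    exact ⟨⟨hx, hx'⟩, hmod⟩
  have hle := hleΛ _ hxΛ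
  have hty := (hlab (x, x') (mem_product.2 ⟨hx, hx'⟩) hmod).1
  rw [mem_image]
  refine ⟨(((x, x'), fun t => (y t, y' t)), (u, u')), ?_, ?_⟩
  · rw [mem_biUnion]
    refine ⟨ty (x, x'), hty, ?_⟩
    simp only [mem_filter, mem_product, Fintype.mem_piFinset]
    refine ⟨⟨⟨mem_filter.2 ⟨hxΛ, rfl⟩, fun t => mem_product.2 ⟨hy t, hy' t⟩⟩, hu, hu'⟩, ?_⟩
    simp only [hs₁, hσd, Finset.sum_add_distrib]
    simp only at hle
    omega
  · simp only [Prod.mk.injEq]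
    exact ⟨hxa, hxa'⟩

end Pool.Agent.Helper54.T5
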